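import Mathlib

set_option autoImplicit false

namespace Pool.Agent.H.MP_0dad12_an

open Finset

variable {B : Type} [CStarAlgebra B] {ι : Type} [Fintype ι] [DecidableEq ι]

/-- matrix units -/
structure MU (e : ι → ι → B) : Prop where
  mul : ∀ a b c d, e a b * e c d = if b = c then e a d else 0
  st : ∀ a b, star (e a b) = e b a
  sum : ∑ a, e a a = 1

/-- slices -/
def sl (e : ι → ι → B) (p q : ι) (x : B) : B := ∑ r, e r p * x * e q r

variable {e : ι → ι → B}

omit [DecidableEq ι] in
theorem sl_add (p q : ι) (x y : B) : sl e p q (x + y) = sl e p q x + sl e p q y := by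
  simp [sl, mul_add, add_mul, sum_add_distrib]

omit [DecidableEq ι] in
theorem sl_sub (p q : ι) (x y : B) : sl e p q (x - y) = sl e p q x - sl e p q y := by
  simp [sl, mul_sub, sub_mul, sum_sub_distrib]

omit [DecidableEq ι] in
theorem sl_smul (p q : ι) (c : ℂ) (x : B) : sl e p q (c • x) = c • sl e p q x := by
  simp [sl, smul_sum]

omit [DecidableEq ι] in
theorem sl_zero (p q : ι) : sl e p q 0 = 0 := by simp [sl]

omit [DecidableEq ι] in
theorem sl_cont (p q : ι) : Continuous (sl e p q) := by
  unfold sl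
  fun_prop

theorem MU.sl_star (h : MU e) (p q : ι) (x : B) : star (sl e p q x) = sl e q p (star x) := by
  simp [sl, star_sum, h.st, mul_assoc]

theorem MU.mul' (h : MU e) (a b c d : ι) (x : B) :
    e a b * (e c d * x) = if b = c then e a d * x else 0 := by
  rw [← mul_assoc, h.mul]
  split_ifs <;> simp

theorem MU.sl_mul (h : MU e) (p q : ι) (x y : B) :
    sl e p q (x * y) = ∑ s, sl e p s x * sl e s q y := by
  have : ∀ s, sl e p s x * sl e s q y = ∑ r, e r p * x * e s s * y * e q r := by
    intro s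
    simp only [sl, sum_mul, mul_sum, mul_assoc, h.mul', mul_ite, mul_zero, sum_ite_eq', mem_univ,
      if_true]
  simp only [this]
  rw [sum_comm]
  refine sum_congr rfl fun r _ => ?_
  simp only [← sum_mul, ← mul_sum, h.sum, one_mul, mul_assoc]

theorem MU.sl_unit (h : MU e) (p q a b : ι) :
    sl e p q (e a b) = if p = a ∧ b = q then 1 else 0 := by
  simp only [sl, h.mul, ite_mul, zero_mul]
  by_cases h1 : p = a <;> by_cases h2 : b = q <;> simp [h1, h2, h.sum]

theorem MU.sl_one (h : MU e) (p q : ι) : sl e p q 1 = if p = q then 1 else 0 := by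
  simp only [sl, mul_one, h.mul]
  split_ifs <;> simp [h.sum]

omit [DecidableEq ι] in
theorem sl_mul_right (p q : ι) (x : B) {y : B} (hy : ∀ a b, Commute y (e a b)) :
    sl e p q (x * y) = sl e p q x * y := by
  simp only [sl, sum_mul, mul_assoc, (hy _ _).eq]

omit [DecidableEq ι] in
theorem sl_mul_left (p q : ι) (x : B) {y : B} (hy : ∀ a b, Commute y (e a b)) :
    sl e p q (y * x) = y * sl e p q x := by
  simp only [sl, mul_sum, ← mul_assoc, (hy _ _).eq]

theorem MU.sl_self (h : MU e) (p : ι) {y : B} (hy : ∀ a b, Commute y (e a b)) :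
    sl e p p y = y := by
  have := sl_mul_left p p 1 hy
  rwa [mul_one, h.sl_one, if_pos rfl, mul_one] at this

omit [DecidableEq ι] in
theorem sl_comm (p q : ι) {x y : B} (hy : ∀ a b, Commute y (e a b)) (hx : Commute y x) :
    Commute y (sl e p q x) :=
  Commute.sum_right _ _ _ fun _ _ => ((hy _ _).mul_right hx).mul_right (hy _ _)

theorem MU.norm_sl (h : MU e) (p q : ι) (x : B) : ‖sl e p q x‖ ≤ ‖x‖ := by
  let _ := CStarAlgebra.spectralOrder B
  have := CStarAlgebra.spectralOrderedRing B
  have e1 : star (sl e p q x) * sl e p q x =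
      ∑ r, star (x * e q r) * e p p * (x * e q r) := by
    simp only [sl, star_sum, star_mul, h.st, sum_mul, mul_sum, mul_assoc, h.mul', mul_ite,
      mul_zero, sum_ite_eq', mem_univ, if_true]
  have e2 : e p p ≤ 1 := by
    rw [← h.sum]
    refine single_le_sum (f := fun a => e a a) (fun a _ => ?_) (mem_univ p)
    have : e a a = star (e a a) * e a a := by rw [h.st, h.mul, if_pos rfl]
    rw [this]
    exact star_mul_self_nonneg _
  have e3 : star (sl e p q x) * sl e p q x ≤ algebraMap ℝ B (‖x‖ * ‖x‖) := by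
    rw [e1, Algebra.algebraMap_eq_smul_one, ← h.sum, smul_sum]
    refine sum_le_sum fun r _ => ?_
    calc _ ≤ star (x * e q r) * 1 * (x * e q r) := star_left_conjugate_le_conjugate e2 _
      _ = star (e q r) * (star x * x) * e q r := by simp [mul_assoc]
      _ ≤ ‖star x * x‖ • (star (e q r) * e q r) :=
        CStarAlgebra.star_left_conjugate_le_norm_smul (IsSelfAdjoint.star_mul_self x)
      _ = _ := by rw [CStarRing.norm_star_mul_self, h.st, h.mul, if_pos rfl]
  have e4 := (CStarAlgebra.norm_le_iff_le_algebraMap _ (by positivity)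
    (star_mul_self_nonneg _)).2 e3
  rw [CStarRing.norm_star_mul_self] at e4
  exact (mul_self_le_mul_self_iff (norm_nonneg _) (norm_nonneg _)).2 e4

theorem MU.prod {κ : Type} [Fintype κ] [DecidableEq κ] {f : κ → κ → B} (he : MU e) (hf : MU f)
    (hc : ∀ a b c d, Commute (e a b) (f c d)) :
    MU fun p q : ι × κ => e p.1 q.1 * f p.2 q.2 where
  mul a b c d := by
    rw [(hc _ _ _ _).symm.mul_mul_mul_comm, he.mul, hf.mul]
    by_cases h1 : b.1 = c.1 <;> by_cases h2 : b.2 = c.2 <;> simp [h1, h2, Prod.ext_iff]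
  st a b := by rw [star_mul, he.st, hf.st, (hc _ _ _ _).eq]
  sum := by rw [Fintype.sum_prod_type]; simp only [← mul_sum, hf.sum, mul_one, he.sum]

omit [DecidableEq ι] in
theorem sl_prod {κ : Type} [Fintype κ] {f : κ → κ → B}
    (hc : ∀ a b c d, Commute (e a b) (f c d)) (p q : ι × κ) (x : B) :
    sl (fun p q : ι × κ => e p.1 q.1 * f p.2 q.2) p q x = sl e p.1 q.1 (sl f p.2 q.2 x) := by
  simp only [sl, Fintype.sum_prod_type, mul_sum, sum_mul, mul_assoc, (hc q.1 _ _ _).eq]

theorem MU.reindex {κ : Type} [Fintype κ] [DecidableEq κ] (he : MU e) (σ : κ ≃ ι) :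
    MU fun p q => e (σ p) (σ q) where
  mul a b c d := by simp [he.mul]
  st a b := he.st _ _
  sum := by rw [← he.sum]; exact σ.sum_comp fun a => e a a

omit [DecidableEq ι] in
theorem sl_reindex {κ : Type} [Fintype κ] (σ : κ ≃ ι) (p q : κ) (x : B) :
    sl (fun p q => e (σ p) (σ q)) p q x = sl e (σ p) (σ q) x :=
  σ.sum_comp fun r => e r (σ p) * x * e (σ q) r

theorem MU.map {A : Type} [CStarAlgebra A] (he : MU e) (π : B →⋆ₐ[ℂ] A) :
    MU fun p q => π (e p q) where
  mul a b c d := by rw [← map_mul, he.mul]; split_ifs <;> simp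
  st a b := by rw [← map_star, he.st]
  sum := by rw [← map_sum, he.sum, map_one]

theorem MU.ofHom (φ : Matrix ι ι ℂ →⋆ₐ[ℂ] B) : MU fun p q => φ (Matrix.single p q 1) where
  mul a b c d := by
    rw [← map_mul]
    split_ifs with h
    · subst h
      simp
    · rw [Matrix.single_mul_single_of_ne _ _ _ _ h, map_zero]
  st a b := by
    rw [← map_star, Matrix.star_eq_conjTranspose, Matrix.conjTranspose_single, star_one]
  sum := by rw [← map_sum, Matrix.sum_single_one, map_one]

theorem MU.coeff (h : MU e) [Nontrivial B] (c : ι × ι → ℂ) (hc : ∑ p, c p • e p.1 p.2 = 0) :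
    c = 0 := by
  funext p
  have := congrArg (sl e p.1 p.2) hc
  rw [sl_zero, show sl e p.1 p.2 (∑ r, c r • e r.1 r.2) = ∑ r, c r • sl e p.1 p.2 (e r.1 r.2) by
    simp only [sl, mul_sum, sum_mul, smul_sum, mul_smul_comm, smul_mul_assoc]
    exact sum_comm] at this
  simp only [h.sl_unit] at this
  rw [sum_eq_single p] at this
  · simpa using this
  · intro r _ hr
    rw [if_neg, smul_zero]
    rintro ⟨h1, h2⟩
    exact hr (Prod.ext h1.symm h2)
  · simp

/-- the hom defined by matrix units -/
noncomputable def MU.hom (h : MU e) : Matrix ι ι ℂ →⋆ₐ[ℂ] B where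
  toFun m := ∑ a, ∑ b, m a b • e a b
  map_one' := by simp [Matrix.one_apply, h.sum]
  map_mul' x y := by
    simp only [Matrix.mul_apply, sum_mul, sum_smul]
    refine sum_congr rfl fun a _ => ?_
    rw [sum_comm]
    refine sum_congr rfl fun b _ => ?_
    simp only [mul_sum, smul_mul_smul_comm, h.mul, smul_ite, smul_zero]
    rw [sum_comm]
    simp
  map_zero' := by simp
  map_add' x y := by simp [add_smul, sum_add_distrib]
  commutes' c := by
    simp [Matrix.algebraMap_matrix_apply, ← smul_sum, h.sum, Algebra.algebraMap_eq_smul_one]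
  map_star' x := by
    simp only [star_sum, star_smul, h.st, Matrix.star_apply]
    exact sum_comm

end Pool.Agent.H.MP_0dad12_an
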