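import Pool.Agent.H.MP_0dad12_an.A

set_option autoImplicit false

namespace Pool.Agent.H.MP_0dad12_an

open Finset

variable {B : Type} [CStarAlgebra B] {J : Type} {n : J → ℕ}

/-- families of matrix algebras -/
abbrev Fam (n : J → ℕ) (B : Type) [CStarAlgebra B] : Type :=
  ∀ j, Matrix (Fin (n j)) (Fin (n j)) ℂ →⋆ₐ[ℂ] B

/-- commuting families -/
def Com (φ : Fam n B) : Prop := ∀ i j, i ≠ j → ∀ x y, Commute (φ i x) (φ j y)

/-- the algebra of a set of sites -/
def Al (φ : Fam n B) (G : Set J) : StarSubalgebra ℂ B :=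
  StarAlgebra.adjoin ℂ (⋃ j ∈ G, Set.range (φ j))

variable {φ : Fam n B}

theorem Al_mono {G G' : Set J} (h : G ⊆ G') : Al φ G ≤ Al φ G' :=
  StarAlgebra.adjoin_mono (Set.biUnion_subset_biUnion_left h)

theorem mem_Al {G : Set J} {j : J} (h : j ∈ G) (m : Matrix (Fin (n j)) (Fin (n j)) ℂ) :
    φ j m ∈ Al φ G :=
  StarAlgebra.subset_adjoin ℂ _ (Set.mem_biUnion h ⟨m, rfl⟩)

theorem Al_ind {G : Set J} {P : B → Prop} (h0 : ∀ j ∈ G, ∀ m, P (φ j m))
    (h1 : ∀ c : ℂ, P (algebraMap ℂ B c)) (h2 : ∀ x y, P x → P y → P (x + y))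
    (h3 : ∀ x y, P x → P y → P (x * y)) (h4 : ∀ x, P x → P (star x)) {x : B} (hx : x ∈ Al φ G) :
    P x := by
  induction hx using StarAlgebra.adjoin_induction with
  | mem x hx =>
    simp only [Set.mem_iUnion] at hx
    obtain ⟨j, hj, m, rfl⟩ := hx
    exact h0 j hj m
  | algebraMap r => exact h1 r
  | add x y _ _ hx hy => exact h2 _ _ hx hy
  | mul x y _ _ hx hy => exact h3 _ _ hx hy
  | star x _ hx => exact h4 _ hx

theorem Com.al (hc : Com φ) {G G' : Set J} (hd : Disjoint G G') {x y : B} (hx : x ∈ Al φ G)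
    (hy : y ∈ Al φ G') : Commute x y := by
  revert x
  refine Al_ind (P := fun y => ∀ {x}, x ∈ Al φ G → Commute x y) (fun j hj m x hx => ?_)
    (fun c x _ => (Algebra.commutes c x).symm) (fun _ _ h1 h2 _ hx => (h1 hx).add_right (h2 hx))
    (fun _ _ h1 h2 _ hx => (h1 hx).mul_right (h2 hx))
    (fun y h x hx => by simpa using (h (star_mem hx)).star_star) hy
  revert m
  exact Al_ind (P := fun x => ∀ m, Commute x (φ j m))
    (fun i hi m' m => hc i j (fun e => Set.disjoint_left.1 hd hi (e ▸ hj)) _ _)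
    (fun c m => Algebra.commutes c _) (fun _ _ h1 h2 m => (h1 m).add_left (h2 m))
    (fun _ _ h1 h2 m => (h1 m).mul_left (h2 m))
    (fun x h m => by simpa [map_star] using (h (star m)).star_star) hx

theorem Al_fin {x : B} (hx : x ∈ Al φ Set.univ) : ∃ F : Finset J, x ∈ Al φ F := by
  classical
  refine Al_ind (P := fun x => ∃ F : Finset J, x ∈ Al φ F)
    (fun j _ m => ⟨{j}, mem_Al (by simp) m⟩) (fun c => ⟨∅, algebraMap_mem _ _⟩) ?_ ?_ ?_ hx
  · rintro x y ⟨F, hF⟩ ⟨G, hG⟩
    exact ⟨F ∪ G, add_mem (Al_mono (by simp) hF) (Al_mono (by simp) hG)⟩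
  · rintro x y ⟨F, hF⟩ ⟨G, hG⟩
    exact ⟨F ∪ G, mul_mem (Al_mono (by simp) hF) (Al_mono (by simp) hG)⟩
  · rintro x ⟨F, hF⟩
    exact ⟨F, star_mem hF⟩

theorem MU.mem_range {ι : Type} [Fintype ι] [DecidableEq ι] {e : ι → ι → B} (h : MU e)
    (a b : ι) : e a b ∈ h.hom.range :=
  ⟨Matrix.single a b 1, by
    change ∑ c, ∑ d, Matrix.single a b (1 : ℂ) c d • e c d = _
    simp [Matrix.single, ite_and]⟩

theorem Com.sys (hc : Com φ) (G : Finset J) : ∃ (N : ℕ) (e : Fin N → Fin N → B) (h : MU e),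
    (∀ p q, e p q ∈ Al φ G) ∧ Al φ G ≤ h.hom.range ∧ N = ∏ j ∈ G, n j := by
  classical
  induction G using Finset.induction_on with
  | empty =>
    refine ⟨1, fun _ _ => 1, ⟨fun a b c d => by simp [Subsingleton.elim b c], by simp, by simp⟩,
      fun _ _ => one_mem _, StarAlgebra.adjoin_le (by simp), by simp⟩
  | insert j G hj ih =>
    obtain ⟨N, e, h, h1, h2, h3⟩ := ih
    have hf := MU.ofHom (φ j)
    have hcm : ∀ a b c d, Commute (φ j (Matrix.single a b 1)) (e c d) := fun a b c d =>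
      hc.al (G := {j}) (G' := G) (by simpa using hj) (mem_Al (Set.mem_singleton j) _) (h1 c d)
    have hp := (hf.prod h hcm).reindex finProdFinEquiv.symm
    have key : ∀ a b c d, φ j (Matrix.single a b 1) * e c d ∈ hp.hom.range := by
      intro a b c d
      simpa using hp.mem_range (finProdFinEquiv (a, c)) (finProdFinEquiv (b, d))
    refine ⟨_, _, hp, fun p q => mul_mem (mem_Al (by simp) _) (Al_mono (by simp) (h1 _ _)),
      StarAlgebra.adjoin_le ?_, by rw [prod_insert hj, h3]⟩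
    intro x hx
    simp only [Set.mem_iUnion, coe_insert, Set.mem_insert_iff] at hx
    obtain ⟨i, rfl | hi, m, rfl⟩ := hx
    · rw [Matrix.matrix_eq_sum_single m]
      simp only [map_sum, SetLike.mem_coe]
      refine sum_mem fun a _ => sum_mem fun b _ => ?_
      have : φ i (Matrix.single a b (m a b)) =
          m a b • ∑ c, φ i (Matrix.single a b 1) * e c c := by
        rw [← mul_sum, h.sum, mul_one, ← map_smul, Matrix.smul_single, smul_eq_mul, mul_one]
      rw [this]
      exact SMulMemClass.smul_mem _ (sum_mem fun c _ => key _ _ _ _)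
    · obtain ⟨m', hm'⟩ := h2 (mem_Al hi m)
      rw [SetLike.mem_coe, ← hm']
      change ∑ c, ∑ d, m' c d • e c d ∈ _
      refine sum_mem fun c _ => sum_mem fun d _ => SMulMemClass.smul_mem _ ?_
      rw [← one_mul (e c d), ← hf.sum, sum_mul]
      exact sum_mem fun a _ => key _ _ _ _

theorem Com.sl_mem (hc : Com φ) {R G : Set J} (hd : Disjoint R G) {ι : Type} [Fintype ι]
    [DecidableEq ι] {e : ι → ι → B} (h : MU e) (h1 : ∀ p q, e p q ∈ Al φ G)
    (h2 : Al φ G ≤ h.hom.range) {w : B} (hw : w ∈ Al φ (R ∪ G)) :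
    ∀ p q, sl e p q w ∈ Al φ R := by
  have h0 : ∀ y ∈ Al φ R, ∀ p q, sl e p q y ∈ Al φ R := by
    intro y hy p q
    have := sl_mul_left p q 1 (y := y) fun a b => hc.al hd hy (h1 a b)
    rw [mul_one] at this
    rw [this, h.sl_one]
    split_ifs
    · simpa using hy
    · simp
  refine Al_ind (P := fun w => ∀ p q, sl e p q w ∈ Al φ R) ?_
    (fun c => h0 _ (algebraMap_mem _ _)) (fun x y hx hy p q => ?_) (fun x y hx hy p q => ?_)
    (fun x hx p q => ?_) hw
  · rintro j (hj | hj) m p q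
    · exact h0 _ (mem_Al hj m) p q
    · obtain ⟨m', hm'⟩ := h2 (mem_Al hj m)
      rw [← hm']
      change sl e p q (∑ c, ∑ d, m' c d • e c d) ∈ _
      have : sl e p q (∑ c, ∑ d, m' c d • e c d) = ∑ c, ∑ d, m' c d • sl e p q (e c d) := by
        simp only [sl, mul_sum, sum_mul, smul_sum, mul_smul_comm, smul_mul_assoc]
        rw [sum_comm]
        exact sum_congr rfl fun c _ => sum_comm
      rw [this]
      refine sum_mem fun c _ => sum_mem fun d _ => SMulMemClass.smul_mem _ ?_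
      rw [h.sl_unit]
      split_ifs
      · exact one_mem _
      · exact zero_mem _
  · rw [sl_add]
    exact add_mem (hx p q) (hy p q)
  · rw [h.sl_mul]
    exact sum_mem fun s _ => mul_mem (hx _ _) (hy _ _)
  · rw [← h.sl_star]
    exact star_mem (hx _ _)

theorem mat_inj {ι : Type} [Fintype ι] [DecidableEq ι] {A : Type} [CStarAlgebra A] [Nontrivial A]
    (f : Matrix ι ι ℂ →⋆ₐ[ℂ] A) : Function.Injective f := by
  rcases isEmpty_or_nonempty ι with h | h
  · exact fun _ _ _ => Subsingleton.elim _ _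
  · exact RingHom.injective (f : Matrix ι ι ℂ →+* A)

theorem Com.iso (hc : Com φ) [Nontrivial B] {A : Type} [CStarAlgebra A] [Nontrivial A]
    (π : B →⋆ₐ[ℂ] A) {x : B} (hx : x ∈ closure (Al φ Set.univ : Set B)) : ‖π x‖ = ‖x‖ := by
  have hπ : Continuous π := AddMonoidHomClass.continuous_of_bound π 1 fun a => by
    simpa using NonUnitalStarAlgHom.norm_apply_le π a
  refine closure_minimal (t := {x | ‖π x‖ = ‖x‖}) (fun y hy => ?_)
    (isClosed_eq (by fun_prop) (by fun_prop)) hx
  obtain ⟨F, hF⟩ := Al_fin hy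
  obtain ⟨N, e, h, -, h2, -⟩ := hc.sys F
  obtain ⟨m, rfl⟩ := h2 hF
  let T := Matrix.toEuclideanCLM (n := Fin N) (𝕜 := ℂ)
  have a1 := NonUnitalStarAlgHom.norm_map (h.hom.comp T.symm.toStarAlgHom)
    ((mat_inj h.hom).comp T.symm.injective) (T m)
  have a2 := NonUnitalStarAlgHom.norm_map ((π.comp h.hom).comp T.symm.toStarAlgHom)
    ((mat_inj (π.comp h.hom)).comp T.symm.injective) (T m)
  simp only [StarAlgHom.comp_apply] at a1 a2
  change ‖h.hom (T.symm (T m))‖ = _ at a1
  change ‖π (h.hom (T.symm (T m)))‖ = _ at a2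
  rw [T.symm_apply_apply] at a1 a2
  exact a2.trans a1.symm

theorem Com.univ (hc : Com φ) [Nontrivial B] (hd : Dense (Al φ Set.univ : Set B)) {A : Type}
    [CStarAlgebra A] [Nontrivial A] {ψ : Fam n A} (hψ : Com ψ) :
    ∃ f : B →⋆ₐ[ℂ] A, Function.Injective f := by
  let θ : Fam n (B × A) := fun j => (φ j).prod (ψ j)
  have hθ : Com θ := fun i j h x y => Prod.ext (hc i j h x y) (hψ i j h x y)
  let D := (Al θ Set.univ).topologicalClosure
  have hD : IsClosed (D : Set (B × A)) := StarSubalgebra.isClosed_topologicalClosure _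
  let p1 : D →⋆ₐ[ℂ] B := (StarAlgHom.fst ℂ B A).comp D.subtype
  let p2 : D →⋆ₐ[ℂ] A := (StarAlgHom.snd ℂ B A).comp D.subtype
  have i1 : Isometry p1 := AddMonoidHomClass.isometry_of_norm _ fun x =>
    hθ.iso (StarAlgHom.fst ℂ B A) x.2
  have i2 : Isometry p2 := AddMonoidHomClass.isometry_of_norm _ fun x =>
    hθ.iso (StarAlgHom.snd ℂ B A) x.2
  have hs : Function.Surjective p1 := by
    rw [← Set.range_eq_univ, ← i1.isClosedEmbedding.isClosed_range.closure_eq,
      ← dense_iff_closure_eq]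
    refine Dense.mono (s₂ := (p1.range : Set B)) (StarAlgebra.adjoin_le ?_) hd
    intro x hx
    simp only [Set.mem_iUnion] at hx
    obtain ⟨j, -, m, rfl⟩ := hx
    exact ⟨⟨θ j m, subset_closure (mem_Al (Set.mem_univ j) m)⟩, rfl⟩
  let E := StarAlgEquiv.ofBijective p1 ⟨i1.injective, hs⟩
  exact ⟨p2.comp E.symm.toStarAlgHom, i2.injective.comp E.symm.injective⟩

theorem even_hom {k : ℕ} (hk : Even k) :
    Nonempty (Matrix (Fin 2) (Fin 2) ℂ →⋆ₐ[ℂ] Matrix (Fin k) (Fin k) ℂ) := by
  obtain ⟨m, rfl⟩ := hk.two_dvd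
  exact ⟨{ toFun := fun x => Matrix.reindexAlgEquiv ℂ ℂ finProdFinEquiv
             (Matrix.kroneckerMap (· * ·) x (1 : Matrix (Fin m) (Fin m) ℂ))
           map_one' := by rw [Matrix.one_kronecker_one, map_one]
           map_mul' := fun x y => by rw [← map_mul, ← Matrix.mul_kronecker_mul, mul_one]
           map_zero' := by rw [Matrix.zero_kronecker, map_zero]
           map_add' := fun x y => by rw [Matrix.add_kronecker, map_add]
           commutes' := fun c => by
             rw [Algebra.algebraMap_eq_smul_one, Matrix.smul_kronecker, Matrix.one_kronecker_one,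
               map_smul, map_one, Algebra.algebraMap_eq_smul_one]
           map_star' := fun x => by
             simp [Matrix.star_eq_conjTranspose, Matrix.conjTranspose_kronecker] }⟩

end Pool.Agent.H.MP_0dad12_an
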