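import Pool.Agent.H.MP_0dad12_an.B

set_option autoImplicit false

namespace Pool.Agent.H.MP_0dad12_an

open Finset Cardinal Filter Topology

theorem parity {ι : Type} [Fintype ι] [DecidableEq ι] (hι : Odd (Fintype.card ι))
    (s t : Matrix ι ι ℂ) (hs : star s = s) (ht : star t = t) (_h1 : IsUnit t)
    (h2 : ∀ τ ∈ Set.Icc (0 : ℝ) 1, IsUnit ((1 - τ : ℂ) • s - (τ : ℂ) • (t * s * t))) : False := by
  have hre : ∀ m : Matrix ι ι ℂ, star m = m → (m.det.re : ℂ) = m.det := by
    intro m hm
    rw [← Complex.conj_eq_iff_re, ← Complex.star_def, ← Matrix.det_conjTranspose,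
      ← Matrix.star_eq_conjTranspose, hm]
  let g : ℝ → ℝ := fun τ => ((1 - τ : ℂ) • s - (τ : ℂ) • (t * s * t)).det.re
  have hg : Continuous g := by
    refine Complex.continuous_re.comp (Continuous.matrix_det ?_)
    fun_prop
  have g0 : g 0 = s.det.re := by simp [g]
  have g1 : g 1 = -(t.det.re ^ 2 * s.det.re) := by
    apply Complex.ofReal_injective
    simp only [g, Complex.ofReal_one, sub_self, zero_smul, one_smul, zero_sub]
    rw [hre _ (by simp [hs, ht, mul_assoc]), Matrix.det_neg, hι.neg_one_pow, Matrix.det_mul,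
      Matrix.det_mul]
    push_cast
    rw [hre _ hs, hre _ ht]
    ring
  have hne : ∀ τ ∈ Set.Icc (0 : ℝ) 1, g τ ≠ 0 := by
    intro τ hτ h
    have := ((Matrix.isUnit_iff_isUnit_det _).1 (h2 τ hτ)).ne_zero
    rw [← hre _ (by simp [hs, ht, mul_assoc])] at this
    exact this (Complex.ofReal_eq_zero.2 h)
  have h0 : (0 : ℝ) ∈ Set.uIcc (g 0) (g 1) := by
    rw [g0, g1, Set.mem_uIcc]
    have := sq_nonneg t.det.re
    rcases le_total s.det.re 0 with h | h
    · left; constructor <;> nlinarith
    · right; constructor <;> nlinarith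
  obtain ⟨τ, hτ, h⟩ := intermediate_value_uIcc hg.continuousOn h0
  rw [Set.uIcc_of_le zero_le_one] at hτ
  exact hne τ hτ h

variable {B : Type} [CStarAlgebra B]

/-- real part -/
def ps (x : B) : B := x + star x

/-- imaginary part -/
noncomputable def pt (x : B) : B := Complex.I • (x - star x)

/-- the open condition -/
def Good (x : B) : Prop := IsUnit (pt x) ∧
  ∀ τ ∈ Set.Icc (0 : ℝ) 1, IsUnit ((1 - τ : ℂ) • ps x - (τ : ℂ) • (pt x * ps x * pt x))

theorem good_near {v : B} (h1 : v * v = 0) (h2 : star v * v + v * star v = 1) :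
    ∀ᶠ x in 𝓝 v, Good x := by
  have h3 : star v * star v = 0 := by rw [← star_mul, h1, star_zero]
  have a1 : ps v * ps v = 1 := by
    simp only [ps, mul_add, add_mul, h1, h3, zero_add, add_zero, h2]
  have a2 : pt v * pt v = 1 := by
    simp only [pt, smul_mul_smul_comm, Complex.I_mul_I, mul_sub, sub_mul, h1, h3, ← h2]
    simp [add_comm]
  have a3 : pt v * ps v = -(ps v * pt v) := by
    rw [pt, smul_mul_assoc, mul_smul_comm, ← smul_neg]
    congr 1
    simp only [ps, mul_sub, sub_mul, mul_add, add_mul, h1, h3]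
    abel
  have c1 : Continuous (ps : B → B) := by unfold ps; fun_prop
  have c2 : Continuous (pt : B → B) := by unfold pt; fun_prop
  refine (c2.continuousAt.eventually (Units.isOpen.mem_nhds ⟨⟨_, _, a2, a2⟩, rfl⟩)).and ?_
  refine isCompact_Icc.eventually_forall_of_forall_eventually fun τ _ => ?_
  have c3 : Continuous fun z : B × ℝ =>
      (1 - z.2 : ℂ) • ps z.1 - (z.2 : ℂ) • (pt z.1 * ps z.1 * pt z.1) := by fun_prop
  refine c3.continuousAt.eventually (Units.isOpen.mem_nhds ?_)
  have : (1 - τ : ℂ) • ps v - (τ : ℂ) • (pt v * ps v * pt v) = ps v := by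
    rw [a3, neg_mul, mul_assoc, a2, mul_one, smul_neg, sub_neg_eq_add, ← add_smul]
    simp
  simp only [this]
  exact ⟨⟨_, _, a1, a1⟩, rfl⟩

theorem not_good [Nontrivial B] {ι : Type} [Fintype ι] [DecidableEq ι]
    (hι : Odd (Fintype.card ι)) {e : ι → ι → B} (h : MU e) {x : B}
    (hx : ∀ p q r t, Commute (sl e p q x) (sl e r t x) ∧ Commute (star (sl e p q x)) (sl e r t x))
    (hg : Good x) : False := by
  let s : Set B := Set.range fun p : ι × ι => sl e p.1 p.2 x
  let C := StarSubalgebra.centralizer ℂ (StarSubalgebra.centralizer ℂ s : Set B)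
  have hC : IsClosed (C : Set B) := Set.isClosed_centralizer _
  have h1 : s ⊆ StarSubalgebra.centralizer ℂ s := by
    rintro _ ⟨p, rfl⟩
    rw [SetLike.mem_coe, StarSubalgebra.mem_centralizer_iff]
    rintro _ ⟨q, rfl⟩
    exact hx _ _ _ _
  have h2 : C ≤ StarSubalgebra.centralizer ℂ s := StarSubalgebra.centralizer_le ℂ _ _ h1
  have h3 : s ⊆ C := by
    intro y hy
    rw [SetLike.mem_coe, StarSubalgebra.mem_centralizer_iff]
    intro z hz
    exact ⟨(((StarSubalgebra.mem_centralizer_iff ℂ).1 hz) y hy).1.symm,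
      (((StarSubalgebra.mem_centralizer_iff ℂ).1 (star_mem hz)) y hy).1.symm⟩
  let _ : CommCStarAlgebra C := { StarSubalgebra.cstarAlgebra C with
    mul_comm := fun a b => Subtype.ext
      (((StarSubalgebra.mem_centralizer_iff ℂ).1 b.2) a (h2 a.2)).1 }
  obtain ⟨χ⟩ : Nonempty (WeakDual.characterSpace ℂ C) := inferInstance
  let D : StarSubalgebra ℂ B :=
    { carrier := {z | ∀ p q, sl e p q z ∈ C}
      mul_mem' := fun {a b} ha hb p q => by
        rw [h.sl_mul]
        exact sum_mem fun r _ => mul_mem (ha _ _) (hb _ _)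
      add_mem' := fun {a b} ha hb p q => by
        rw [sl_add]
        exact add_mem (ha _ _) (hb _ _)
      algebraMap_mem' := fun c p q => by
        rw [Algebra.algebraMap_eq_smul_one, sl_smul, h.sl_one]
        split_ifs
        · exact SMulMemClass.smul_mem _ (one_mem _)
        · simp
      star_mem' := fun {a} ha p q => by
        rw [← h.sl_star]
        exact star_mem (ha _ _) }
  have hD : IsClosed (D : Set B) := by
    have : (D : Set B) = ⋂ p, ⋂ q, sl e p q ⁻¹' C := by
      ext z
      simp only [Set.mem_iInter]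
      rfl
    rw [this]
    exact isClosed_iInter fun p => isClosed_iInter fun q => hC.preimage (sl_cont p q)
  let Φ : D →⋆ₐ[ℂ] Matrix ι ι ℂ :=
    { toFun := fun z => Matrix.of fun p q => χ ⟨sl e p q z, z.2 p q⟩
      map_one' := by
        ext p q
        rw [Matrix.of_apply, Matrix.one_apply]
        split_ifs with hpq
        · rw [← map_one χ]
          exact congrArg χ (Subtype.ext ((h.sl_one p q).trans (if_pos hpq)))
        · rw [← map_zero χ]
          exact congrArg χ (Subtype.ext ((h.sl_one p q).trans (if_neg hpq)))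
      map_mul' := fun a b => by
        ext p q
        simp only [Matrix.of_apply, Matrix.mul_apply, ← map_mul, ← map_sum]
        exact congrArg χ (Subtype.ext ((h.sl_mul p q a b).trans (by simp)))
      map_zero' := by
        ext p q
        rw [Matrix.of_apply, Matrix.zero_apply, ← map_zero χ]
        exact congrArg χ (Subtype.ext (sl_zero p q))
      map_add' := fun a b => by
        ext p q
        simp only [Matrix.of_apply, Matrix.add_apply, ← map_add]
        exact congrArg χ (Subtype.ext (sl_add p q _ _))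
      commutes' := fun c => by
        ext p q
        rw [Matrix.of_apply, Matrix.algebraMap_matrix_apply]
        have : sl e p q (algebraMap ℂ D c : D) = c • if p = q then 1 else 0 := by
          rw [← h.sl_one, ← sl_smul, Algebra.algebraMap_eq_smul_one]
          rfl
        split_ifs at this ⊢ with hpq
        · rw [← AlgHomClass.commutes χ]
          exact congrArg χ (Subtype.ext (this.trans (Algebra.algebraMap_eq_smul_one c).symm))
        · rw [← map_zero χ]
          exact congrArg χ (Subtype.ext (this.trans (smul_zero c)))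
      map_star' := fun a => by
        ext p q
        simp only [Matrix.of_apply, Matrix.star_apply, ← map_star]
        exact congrArg χ (Subtype.ext (h.sl_star q p a).symm) }
  let y : D := ⟨x, fun p q => h3 ⟨(p, q), rfl⟩⟩
  refine parity hι (Φ (y + star y)) (Φ (Complex.I • (y - star y))) ?_ ?_ ?_ fun τ hτ => ?_
  · rw [← map_star, star_add, star_star, add_comm]
  · rw [← map_star, star_smul, star_sub, star_star, Complex.star_def, Complex.conj_I, neg_smul,
      ← smul_neg, neg_sub]
  · exact (D.coe_isUnit.1 hg.1).map Φ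
  · rw [← map_mul, ← map_mul, ← map_smul, ← map_smul, ← map_sub]
    exact (D.coe_isUnit.1 (hg.2 τ hτ)).map Φ

theorem clos {J Code : Type} [Countable Code] (g : Finset J → Code → Finset J) (S0 : Set J)
    {lam : Cardinal} (h0 : #S0 ≤ lam) (hl : ℵ₀ ≤ lam) :
    ∃ S : Set J, S0 ⊆ S ∧ #S ≤ lam ∧ ∀ R : Finset J, ↑R ⊆ S → ∀ c, ↑(g R c) ⊆ S := by
  classical
  let Γ : Set J → Set J := fun S =>
    S ∪ ⋃ p : List S × Code, ↑(g (p.1.map Subtype.val).toFinset p.2)
  have hΓ : ∀ S : Set J, #S ≤ lam → #(Γ S) ≤ lam := by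
    intro S hS
    refine (mk_union_le _ _).trans (add_le_of_le hl hS ((mk_iUnion_le _).trans ?_))
    refine mul_le_of_le hl ?_ (ciSup_le' fun p => (Finset.countable_toSet _).le_aleph0.trans hl)
    rw [mk_prod, lift_id, lift_id]
    exact mul_le_of_le hl ((mk_list_le_max _).trans (max_le hl hS)) (mk_le_aleph0.trans hl)
  let T : ℕ → Set J := fun k => Γ^[k] S0
  have hT : ∀ k, T (k + 1) = Γ (T k) := fun k => Function.iterate_succ_apply' _ _ _
  have hm : Monotone T := monotone_nat_of_le_succ fun k => by
    rw [hT]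
    exact Set.subset_union_left
  have hc : ∀ k, #(T k) ≤ lam := by
    intro k
    induction k with
    | zero => exact h0
    | succ k ih => rw [hT]; exact hΓ _ ih
  refine ⟨⋃ k, T k, Set.subset_iUnion T 0, (mk_iUnion_le _).trans
    (mul_le_of_le hl (mk_le_aleph0.trans hl) (ciSup_le' hc)), fun R hR c => ?_⟩
  obtain ⟨k, hk⟩ : ∃ k, (R : Set J) ⊆ T k := by
    have : ∀ j ∈ R, ∃ k, j ∈ T k := fun j hj => Set.mem_iUnion.1 (hR hj)
    choose! κ hκ using this
    exact ⟨R.sup κ, fun j hj => hm (le_sup (f := κ) hj) (hκ j hj)⟩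
  refine Set.Subset.trans ?_ (Set.subset_iUnion T (k + 1))
  rw [hT]
  refine Set.subset_union_of_subset_right (Set.subset_iUnion_of_subset
    (R.toList.pmap (fun j h => ⟨j, h⟩) (fun j hj => hk (by simpa using hj)), c) ?_) _
  simp [List.map_pmap]

end Pool.Agent.H.MP_0dad12_an
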