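import Pool.Agent.H.MP_0dad12_an.C

set_option autoImplicit false

namespace Pool.Agent.H.MP_0dad12_an

open Finset Cardinal Filter Topology

variable {B : Type} [CStarAlgebra B] {J : Type} {n : J → ℕ} {φ : Fam n B}

/-- systems of matrix units for a set of sites, with a base point -/
structure Sy (φ : Fam n B) (H : Set J) where
  N : ℕ
  e : Fin N → Fin N → B
  mu : MU e
  mem : ∀ p q, e p q ∈ Al φ H
  rng : Al φ H ≤ mu.hom.range
  o : Fin N

theorem Com.sy (hc : Com φ) [Nontrivial B] (G : Finset J) :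
    ∃ s : Sy φ G, s.N = ∏ j ∈ G, n j := by
  obtain ⟨N, e, h, h1, h2, h3⟩ := hc.sys G
  rcases isEmpty_or_nonempty (Fin N) with h4 | ⟨⟨o⟩⟩
  · have := h.sum
    simp at this
  · exact ⟨⟨N, e, h, h1, h2, o⟩, h3⟩

theorem Com.join (hc : Com φ) {G H : Set J} (hd : Disjoint G H) (s : Sy φ G) (t : Sy φ H) :
    ∃ u : Sy φ (G ∪ H), (∀ x, sl u.e u.o u.o x = sl s.e s.o s.o (sl t.e t.o t.o x)) ∧
      ∀ p, ∃ P, ∀ q, ∃ Q, ∀ x, sl u.e P Q x = sl s.e p q (sl t.e t.o t.o x) ∧
        sl u.e Q P x = sl s.e q p (sl t.e t.o t.o x) := by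
  have hcm : ∀ a b c d, Commute (s.e a b) (t.e c d) := fun a b c d =>
    hc.al hd (s.mem a b) (t.mem c d)
  have hp := (s.mu.prod t.mu hcm).reindex finProdFinEquiv.symm
  have key : ∀ a b c d, s.e a b * t.e c d ∈ hp.hom.range := by
    intro a b c d
    simpa using hp.mem_range (finProdFinEquiv (a, c)) (finProdFinEquiv (b, d))
  have key2 : ∀ x ∈ s.mu.hom.range, ∀ y ∈ t.mu.hom.range, x * y ∈ hp.hom.range := by
    rintro _ ⟨x, rfl⟩ _ ⟨y, rfl⟩
    change (∑ a, ∑ b, x a b • s.e a b) * (∑ c, ∑ d, y c d • t.e c d) ∈ _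
    simp only [sum_mul, mul_sum, smul_mul_smul_comm]
    exact sum_mem fun _ _ => sum_mem fun _ _ => sum_mem fun _ _ => sum_mem fun _ _ =>
      SMulMemClass.smul_mem _ (key _ _ _ _)
  have key3 : ∀ p q x, sl (fun p q => s.e (finProdFinEquiv.symm p).1 (finProdFinEquiv.symm q).1 *
      t.e (finProdFinEquiv.symm p).2 (finProdFinEquiv.symm q).2) (finProdFinEquiv (p, t.o))
      (finProdFinEquiv (q, t.o)) x = sl s.e p q (sl t.e t.o t.o x) := by
    intro p q x
    rw [sl_reindex (e := fun p q : Fin s.N × Fin t.N => s.e p.1 q.1 * t.e p.2 q.2), sl_prod hcm]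
    simp
  refine ⟨⟨_, _, hp, fun p q => mul_mem (Al_mono Set.subset_union_left (s.mem _ _))
    (Al_mono Set.subset_union_right (t.mem _ _)), StarAlgebra.adjoin_le ?_,
    finProdFinEquiv (s.o, t.o)⟩, key3 _ _, fun p => ⟨_, fun q => ⟨_, fun x =>
      ⟨key3 p q x, key3 q p x⟩⟩⟩⟩
  intro x hx
  simp only [Set.mem_iUnion, Set.mem_union] at hx
  obtain ⟨i, hi | hi, m, rfl⟩ := hx
  · simpa using key2 _ (s.rng (mem_Al hi m)) 1 (one_mem _)
  · simpa using key2 1 (one_mem _) _ (t.rng (mem_Al hi m))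

theorem Com.tower [DecidableEq J] (hc : Com φ) [Nontrivial B] (H : ℕ → Finset J)
    (hm : Monotone H) : ∃ s : ∀ l, Sy φ (H l), ∀ l l', l ≤ l' → ∀ (F : Set J),
      Disjoint F (H l' \ H l : Finset J) → ∀ y ∈ Al φ F,
        sl (s l').e (s l').o (s l').o y = sl (s l).e (s l).o (s l).o y := by
  have step : ∀ l (s : Sy φ (H l)), ∃ u : Sy φ (H (l + 1)), ∀ (F : Set J),
      Disjoint F (H (l + 1) \ H l : Finset J) → ∀ y ∈ Al φ F,
        sl u.e u.o u.o y = sl s.e s.o s.o y := by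
    intro l s
    obtain ⟨t, -⟩ := hc.sy (H (l + 1) \ H l)
    obtain ⟨u, hu, -⟩ := hc.join (by simpa using Set.disjoint_sdiff_right) s t
    have : (H l : Set J) ∪ (H (l + 1) \ H l : Finset J) = H (l + 1) := by
      rw [← coe_union, union_sdiff_of_subset (hm l.le_succ)]
    refine ⟨⟨u.N, u.e, u.mu, this ▸ u.mem, this ▸ u.rng, u.o⟩, fun F hF y hy => ?_⟩
    rw [hu, t.mu.sl_self _ fun a b => hc.al hF hy (t.mem a b)]
  choose nx hnx using step
  obtain ⟨s0, -⟩ := hc.sy (H 0)
  let s : ∀ l, Sy φ (H l) := fun l => Nat.rec s0 nx l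
  refine ⟨s, fun l l' h F hF y hy => ?_⟩
  induction l', h using Nat.le_induction with
  | base => rfl
  | succ k hk ih =>
    rw [← ih (hF.mono_right (coe_subset.2 (sdiff_subset_sdiff (hm k.le_succ) le_rfl)))]
    exact hnx k (s k) F (hF.mono_right (coe_subset.2 (sdiff_subset_sdiff le_rfl (hm hk)))) y hy

theorem Com.dseq (hc : Com φ) (R : Finset J) :
    ∃ d : ℕ → B, ∀ x ∈ Al φ R, ∀ η > 0, ∃ i, ‖x - d i‖ < η := by
  obtain ⟨N, e, h, -, h2, -⟩ := hc.sys R
  obtain ⟨c, hc1, hc2⟩ :=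
    ((Set.finite_range fun p : Fin N × Fin N => e p.1 p.2).countable.isSeparable).span (R := ℂ)
  obtain ⟨d, hd⟩ := (hc1.insert 0).exists_eq_range (Set.insert_nonempty _ _)
  refine ⟨d, fun x hx η hη => ?_⟩
  obtain ⟨m, rfl⟩ := h2 hx
  have : h.hom m ∈ closure c := by
    refine hc2 ?_
    change ∑ a, ∑ b, m a b • e a b ∈ Submodule.span ℂ _
    exact Submodule.sum_mem _ fun a _ => Submodule.sum_mem _ fun b _ =>
      Submodule.smul_mem _ _ (Submodule.subset_span
        (Set.mem_range_self (f := fun p : Fin N × Fin N => e p.1 p.2) (a, b)))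
  obtain ⟨y, hy, h3⟩ := Metric.mem_closure_iff.1 this η hη
  obtain ⟨i, rfl⟩ : y ∈ Set.range d := hd ▸ Set.mem_insert_of_mem _ hy
  exact ⟨i, by rwa [← dist_eq_norm]⟩

theorem comm_est {u u' y w : B} {η : ℝ} (hc : Commute u u') (h1 : ‖u - y‖ ≤ η)
    (h2 : ‖u' - w‖ ≤ η) (h3 : ‖y‖ ≤ 2) (h4 : ‖u'‖ ≤ 1) : ‖y * w - w * y‖ ≤ 6 * η := by
  have : y * w - w * y = (u - y) * u' * (-1) + u' * (u - y) + y * (u' - w) * (-1) + (u' - w) * y := by
    have := hc.eq
    simp only [mul_neg, mul_one, sub_mul, mul_sub, this]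
    abel
  rw [this]
  simp only [mul_neg, mul_one]
  have a1 := norm_mul_le (u - y) u'
  have a2 := norm_mul_le u' (u - y)
  have a3 := norm_mul_le y (u' - w)
  have a4 := norm_mul_le (u' - w) y
  have a5 := norm_add_le (-((u - y) * u') + u' * (u - y) + -(y * (u' - w))) ((u' - w) * y)
  have a6 := norm_add₃_le (a := -((u - y) * u')) (b := u' * (u - y)) (c := -(y * (u' - w)))
  rw [norm_neg, norm_neg] at a6
  have p1 := norm_nonneg (u - y)
  have p2 := norm_nonneg (u' - w)
  nlinarith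

theorem Com.NE (hc : Com φ) [Nontrivial B] (hd : Dense (Al φ Set.univ : Set B)) {K : Type}
    (v : K → B) (h0 : ∀ a, ‖v a‖ ≤ 1) (h1 : ∀ a, v a * v a = 0)
    (h2 : ∀ a, star (v a) * v a + v a * star (v a) = 1)
    (h3 : ∀ a b, a ≠ b → Commute (v a) (v b) ∧ Commute (star (v a)) (v b))
    (hK : ℵ₀ < #K) (hJ : #{j | Even (n j)} < #K) : False := by
  classical
  set η : ℕ → ℝ := fun l => 1 / ((l : ℝ) + 1) with hη
  have ηp : ∀ l, 0 < η l := fun l => Nat.one_div_pos_of_nat
  have η1 : ∀ l, η l ≤ 1 := fun l => by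
    rw [hη, div_le_one (by positivity)]
    simp
  have ηm : ∀ k l, k ≤ l → η l ≤ η k := fun k l h => Nat.one_div_le_one_div h
  have ηt : Tendsto η atTop (𝓝 0) := tendsto_one_div_add_atTop_nhds_zero_nat
  have ap : ∀ a l, ∃ F : Finset J, ∃ w ∈ Al φ F, ‖v a - w‖ ≤ η l := by
    intro a l
    obtain ⟨w, hw, h⟩ := hd.exists_dist_lt (v a) (ηp l)
    obtain ⟨F, hF⟩ := Al_fin hw
    exact ⟨F, w, hF, by rw [← dist_eq_norm]; exact h.le⟩
  choose F0 w hw0 hw using ap
  let F : K → ℕ → Finset J := fun a l => (range (l + 1)).biUnion (F0 a)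
  have hF : ∀ a l, w a l ∈ Al φ (F a l) := fun a l =>
    Al_mono (coe_subset.2 (subset_biUnion_of_mem (F0 a) (self_mem_range_succ l))) (hw0 a l)
  have Fm : ∀ a, Monotone (F a) := fun a k l h =>
    biUnion_subset_biUnion_of_subset_left _ (range_subset_range.2 (by omega))
  have wn : ∀ a l, ‖w a l‖ ≤ 2 := by
    intro a l
    have := norm_sub_norm_le (w a l) (v a)
    rw [norm_sub_rev] at this
    linarith [hw a l, h0 a, η1 l]
  choose d hdd using hc.dseq
  let Code : Type := ℕ × Σ M : ℕ, Fin M → Fin M → ℕ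
  let Re : Finset J → Code → K → Prop := fun R c a => ∃ e : Fin c.2.1 → Fin c.2.1 → B, MU e ∧
    (∀ p q, e p q ∈ Al φ (F a c.1 \ R : Finset J)) ∧
      ∀ p q, ‖sl e p q (w a c.1) - d R (c.2.2 p q)‖ < η c.1
  have : Nonempty K := mk_ne_zero_iff.1 (pos_of_gt hK).ne'
  let β : Finset J → Code → K := fun R c => Classical.epsilon (Re R c)
  obtain ⟨S, hS0, hS1, hS2⟩ := clos (fun R c => F (β R c) c.1) {j | Even (n j)}
    (le_max_right ℵ₀ _) (le_max_left _ _)
  obtain ⟨α, hα⟩ : ∃ α, ∀ R : Finset J, ↑R ⊆ S → ∀ c, β R c ≠ α := by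
    by_contra hcon
    push Not at hcon
    have hs : Function.Surjective
        fun p : List S × Code => β (p.1.map Subtype.val).toFinset p.2 := by
      intro a
      obtain ⟨R, hR, c, h⟩ := hcon a
      refine ⟨(R.toList.pmap (fun j h => ⟨j, h⟩) (fun j hj => hR (by simpa using hj)), c), ?_⟩
      simpa [List.map_pmap] using h
    have := mk_le_of_surjective hs
    rw [mk_prod, lift_id, lift_id] at this
    exact (max_lt hK hJ).not_ge (this.trans (mul_le_of_le (le_max_left _ _)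
      ((mk_list_le_max _).trans (max_le (le_max_left _ _) hS1))
      (mk_le_aleph0.trans (le_max_left _ _))))
  obtain ⟨ε, hε, hgood⟩ := Metric.eventually_nhds_iff.1 (good_near (h1 α) (h2 α))
  obtain ⟨k, hk⟩ := (ηt.eventually (gt_mem_nhds (show 0 < ε / 3 by positivity))).exists
  let G := (F α k).filter (· ∉ S)
  let H : ℕ → Finset J := fun l => (F α l).filter (· ∉ S) \ G
  have Hm : Monotone H := fun a b h => sdiff_subset_sdiff (filter_subset_filter _ (Fm α h)) le_rfl
  obtain ⟨s0, hs0⟩ := hc.sy G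
  obtain ⟨s, hs⟩ := hc.tower H Hm
  let x : ℕ → B := fun l => sl (s l).e (s l).o (s l).o (w α l)
  have hx : ∀ l l', l ≤ l' → ‖x l - x l'‖ ≤ 2 * η l := by
    intro l l' h
    have := hs l l' h (F α l) (by
      rw [disjoint_coe, disjoint_left]
      intro j hj hj'
      simp only [H, Finset.mem_sdiff, Finset.mem_filter] at hj'
      exact hj'.2 ⟨⟨hj, hj'.1.1.2⟩, hj'.1.2⟩) _ (hF α l)
    simp only [x]
    rw [← this, ← sl_sub]
    refine ((s l').mu.norm_sl _ _ _).trans ?_
    have := norm_sub_le_norm_sub_add_norm_sub (w α l) (v α) (w α l')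
    rw [norm_sub_rev (w α l) (v α)] at this
    linarith [hw α l, hw α l', ηm l l' h]
  obtain ⟨y, hy⟩ := cauchySeq_tendsto_of_complete (cauchySeq_of_le_tendsto_0' (s := x)
    (fun l => 2 * η l) (fun a b h => by rw [dist_eq_norm]; exact hx a b h)
    (by simpa using ηt.const_mul 2))
  have hxk : x k = w α k := (s k).mu.sl_self _ fun a b =>
    hc.al (G' := H k) (by simp [H, G]) (hF α k) ((s k).mem a b)
  have hyk : ‖x k - y‖ ≤ 2 * η k :=
    le_of_tendsto ((tendsto_const_nhds.sub hy).norm) ((eventually_ge_atTop k).mono (hx k))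
  refine not_good (ι := Fin s0.N) ?_ s0.mu (x := y) (fun p q r t => ?_) (hgood ?_)
  · rw [Fintype.card_fin, hs0]
    refine prod_induction _ Odd (fun a b => Odd.mul) odd_one fun j hj => ?_
    rw [← Nat.not_even_iff_odd]
    exact fun h => (mem_filter.1 hj).2 (hS0 h)
  swap
  · rw [dist_eq_norm]
    have := norm_sub_le_norm_sub_add_norm_sub y (x k) (v α)
    rw [norm_sub_rev y (x k), norm_sub_rev (x k) (v α)] at this
    rw [hxk] at this hyk
    linarith [hw α k]
  have main : ∀ l, k ≤ l →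
      ‖sl s0.e p q (x l) * sl s0.e r t (x l) - sl s0.e r t (x l) * sl s0.e p q (x l)‖ ≤ 14 * η l ∧
      ‖star (sl s0.e p q (x l)) * sl s0.e r t (x l) -
        sl s0.e r t (x l) * star (sl s0.e p q (x l))‖ ≤ 14 * η l := by
    intro l hl
    obtain ⟨u, -, hu⟩ := hc.join (G := G) (H := H l) (by simpa [H] using Set.disjoint_sdiff_right)
      s0 (s l)
    obtain ⟨P, hP⟩ := hu p
    obtain ⟨Q, hQ⟩ := hP q
    obtain ⟨P', hP'⟩ := hu r
    obtain ⟨Q', hQ'⟩ := hP' t
    let R := (F α l).filter (· ∈ S)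
    have hR : (R : Set J) ⊆ S := fun j hj => (mem_filter.1 hj).2
    have e1 : (G : Set J) ∪ H l = (F α l \ R : Finset J) := by
      rw [← coe_union, union_sdiff_of_subset (filter_subset_filter _ (Fm α hl))]
      ext j
      simp only [R, coe_filter, coe_sdiff, Set.mem_sdiff, Set.mem_ofPred_eq, mem_coe]
      tauto
    have e2 : (R : Set J) ∪ ((G : Set J) ∪ H l) = F α l := by
      rw [e1, ← coe_union, union_sdiff_of_subset (filter_subset _ _)]
    have e3 := hc.sl_mem (R := R) (by rw [e1]; simpa using Set.disjoint_sdiff_right) u.mu u.mem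
      u.rng (e2 ▸ hF α l)
    choose τ hτ using fun a b => hdd R _ (e3 a b) _ (ηp l)
    let c : Code := (l, ⟨u.N, τ⟩)
    obtain ⟨e', m', n', o'⟩ : Re R c (β R c) :=
      Classical.epsilon_spec (p := Re R c) ⟨α, u.e, u.mu, e1 ▸ u.mem, hτ⟩
    set b := β R c with hb
    have hFb : (F b l : Set J) ⊆ S := hS2 R hR c
    have d1 : Disjoint (F b l : Set J) ((G : Set J) ∪ H l) := by
      rw [e1, Set.disjoint_left]
      intro j hj hj'
      simp only [R, coe_sdiff, coe_filter, Set.mem_sdiff, mem_coe, Set.mem_ofPred_eq] at hj'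
      exact hj'.2 ⟨hj'.1, hFb hj⟩
    have d2 : Disjoint (F α l : Set J) (F b l \ R : Finset J) := by
      rw [Set.disjoint_left]
      intro j hj hj'
      simp only [R, coe_sdiff, coe_filter, Set.mem_sdiff, mem_coe, Set.mem_ofPred_eq] at hj'
      exact hj'.2 ⟨hj, hFb hj'.1⟩
    set b' := sl e' P' Q' (w b l) with hb'
    have c1 : ∀ i j, Commute b' (u.e i j) := fun i j => (sl_comm P' Q'
      (fun i' j' => (hc.al d1 (Al_mono (coe_subset.2 sdiff_subset) (n' i' j')) (u.mem i j)).symm)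
      (hc.al d1 (hF b l) (u.mem i j)).symm).symm
    have c2 : ‖sl s0.e r t (x l) - b'‖ ≤ 2 * η l := by
      have := norm_sub_le_norm_sub_add_norm_sub (sl u.e P' Q' (w α l)) (d R (τ P' Q')) b'
      rw [norm_sub_rev (d R _)] at this
      rw [← (hQ' _).1]
      linarith [hτ P' Q', o' P' Q']
    have key : ∀ (z z' : B) (I L : Fin u.N), ‖z' - z‖ ≤ η l → ‖z‖ ≤ 2 → Commute z' (v b) →
        z ∈ Al φ (F α l) → ‖sl u.e I L z * sl s0.e r t (x l) - sl s0.e r t (x l) * sl u.e I L z‖ ≤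
          14 * η l := by
      intro z z' I L k1 k2 k3 k4
      have k5 : ∀ i j, Commute z (e' i j) := fun i j => hc.al d2 k4 (n' i j)
      have k6 : sl u.e I L z * b' - b' * sl u.e I L z =
          sl u.e I L (sl e' P' Q' (z * w b l - w b l * z)) := by
        rw [sl_sub, sl_mul_left _ _ _ k5, sl_mul_right _ _ _ k5, sl_sub, sl_mul_left _ _ _ c1,
          sl_mul_right _ _ _ c1]
      have k7 := (u.mu.norm_sl I L _).trans ((m'.norm_sl P' Q' _).trans
        (comm_est k3 k1 (hw b l) k2 (h0 b)))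
      rw [← k6] at k7
      have k8 := (u.mu.norm_sl I L z).trans k2
      set A1 := sl u.e I L z
      set A2 := sl s0.e r t (x l)
      have k9 : A1 * A2 - A2 * A1 = (A1 * b' - b' * A1) + (A1 * (A2 - b') - (A2 - b') * A1) := by
        noncomm_ring
      rw [k9]
      refine (norm_add_le _ _).trans ?_
      have a1 := norm_sub_le (A1 * (A2 - b')) ((A2 - b') * A1)
      have a2 := norm_mul_le A1 (A2 - b')
      have a3 := norm_mul_le (A2 - b') A1
      have a4 := norm_nonneg (A2 - b')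
      nlinarith
    have hne : α ≠ b := (hα R hR c).symm
    constructor
    · rw [← (hQ _).1]
      exact key _ _ P Q (hw α l) (wn α l) (h3 α b hne).1 (hF α l)
    · rw [← (hQ _).1, u.mu.sl_star]
      exact key _ (star (v α)) Q P (by rw [← star_sub, norm_star]; exact hw α l)
        (by rw [norm_star]; exact wn α l) (h3 α b hne).2 (star_mem (hF α l))
  have t1 := ((sl_cont (e := s0.e) p q).tendsto y).comp hy
  have t2 := ((sl_cont (e := s0.e) r t).tendsto y).comp hy
  have t3 : Tendsto (fun l => 14 * η l) atTop (𝓝 0) := by simpa using ηt.const_mul 14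
  constructor
  · refine sub_eq_zero.1 (norm_le_zero_iff.1 (le_of_tendsto_of_tendsto
      ((t1.mul t2).sub (t2.mul t1)).norm t3 ?_))
    exact (eventually_ge_atTop k).mono fun l hl => (main l hl).1
  · refine sub_eq_zero.1 (norm_le_zero_iff.1 (le_of_tendsto_of_tendsto
      ((t1.star.mul t2).sub (t2.mul t1.star)).norm t3 ?_))
    exact (eventually_ge_atTop k).mono fun l hl => (main l hl).2

end Pool.Agent.H.MP_0dad12_an
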