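import Pool.Agent.H.MP_0dad12_an.D

set_option autoImplicit false

namespace Pool.Agent.H.MP_0dad12_an

open Finset

section
variable {X H : Type} [NormedAddCommGroup H] [InnerProductSpace ℂ H] [CompleteSpace H]

theorem exists_op (b : HilbertBasis X ℂ H) {v : X → H} (hv : Orthonormal ℂ v) :
    ∃ W : H →L[ℂ] H, ∀ x, W (b x) = v x := by
  classical
  refine ⟨(hv.orthogonalFamily.linearIsometry.comp
    b.repr.toLinearIsometry).toContinuousLinearMap, fun x => ?_⟩
  change hv.orthogonalFamily.linearIsometry (b.repr (b x)) = _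
  rw [b.repr_self, OrthogonalFamily.linearIsometry_apply_single]
  simp

theorem exists_op2 (b : HilbertBasis X ℂ H) (σ : X → X) (hσ : Function.Injective σ)
    (P : X → Prop) [DecidablePred P] :
    ∃ W : H →L[ℂ] H, ∀ x, W (b x) = if P x then b (σ x) else 0 := by
  have h1 := b.orthonormal.comp σ hσ
  obtain ⟨W1, hW1⟩ := exists_op b h1
  obtain ⟨W2, hW2⟩ := exists_op b (h1.orthonormal_of_forall_eq_or_eq_neg
    (w := fun x => if P x then b (σ x) else -b (σ x)) fun x => by by_cases h : P x <;> simp [h])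
  refine ⟨(2⁻¹ : ℂ) • (W1 + W2), fun x => ?_⟩
  rw [_root_.smul_apply, _root_.add_apply, hW1, hW2]
  split_ifs
  · simp only [Function.comp]
    module
  · simp

omit [CompleteSpace H] in
theorem op_ext (b : HilbertBasis X ℂ H) {S T : H →L[ℂ] H} (h : ∀ x, S (b x) = T (b x)) : S = T :=
  ContinuousLinearMap.ext_on (s := Set.range b)
    (Submodule.dense_iff_topologicalClosure_eq_top.2 b.dense_span) (Set.forall_mem_range.2 h)

theorem star_ext (b : HilbertBasis X ℂ H) {S T : H →L[ℂ] H}
    (h : ∀ x y, inner ℂ (S (b y)) (b x) = inner ℂ (b y) (T (b x))) : star S = T := by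
  refine op_ext b fun x => b.repr.injective (lp.ext (funext fun y => ?_))
  rw [b.repr_apply_apply, b.repr_apply_apply, ContinuousLinearMap.star_eq_adjoint,
    ContinuousLinearMap.adjoint_inner_right, h]

theorem exists_fam {J : Type} {n : J → ℕ} (b : HilbertBasis (∀ j, Fin (n j)) ℂ H) :
    ∃ φ : Fam n (H →L[ℂ] H), Com φ := by
  classical
  have : ∀ j (a c : Fin (n j)), ∃ W : H →L[ℂ] H, ∀ x,
      W (b x) = if x j = c then b (Function.update x j a) else 0 := by
    intro j a c
    obtain ⟨W, hW⟩ := exists_op2 b (fun x => Function.update x j (Equiv.swap a c (x j)))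
      (Function.Involutive.injective fun x => by simp) fun x => x j = c
    refine ⟨W, fun x => ?_⟩
    rw [hW]
    split_ifs with h
    · rw [h, Equiv.swap_apply_right]
    · rfl
  choose e he using this
  have hm : ∀ j, MU (e j) := fun j =>
    { mul := fun a c a' c' => op_ext b fun x => by
        rw [mul_apply_eq_comp, he]
        by_cases h1 : x j = c' <;> by_cases h2 : c = a' <;> simp [h1, h2, he, eq_comm]
      st := fun a c => star_ext b fun x y => by
        rw [he, he]
        have := orthonormal_iff_ite.1 b.orthonormal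
        by_cases h1 : y j = c <;> by_cases h2 : x j = a
        · simp only [h1, h2, if_true, this]
          refine if_congr ⟨?_, ?_⟩ rfl rfl
          · rintro rfl
            simp [← h1]
          · rintro rfl
            simp [← h2]
        · simp only [h1, h2, if_true, this, if_false, inner_zero_right]
          refine if_neg ?_
          rintro rfl
          simp at h2
        · simp only [h1, h2, if_true, this, if_false, inner_zero_left]
          refine (if_neg ?_).symm
          rintro rfl
          simp at h1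
        · simp [h1, h2]
      sum := op_ext b fun x => by
        rw [_root_.sum_apply]
        simp [he] }
  have hc : ∀ i j, i ≠ j → ∀ a c a' c', Commute (e i a c) (e j a' c') := by
    intro i j h a c a' c'
    refine op_ext b fun x => ?_
    rw [mul_apply_eq_comp, mul_apply_eq_comp, he, he]
    by_cases h1 : x i = c <;> by_cases h2 : x j = c' <;>
      simp [h1, h2, he, h, h.symm, Function.update_comm h]
  refine ⟨fun j => (hm j).hom, fun i j h x y => ?_⟩
  exact Commute.sum_left _ _ _ fun _ _ => Commute.sum_left _ _ _ fun _ _ =>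
    Commute.sum_right _ _ _ fun _ _ => Commute.sum_right _ _ _ fun _ _ =>
      ((hc i j h _ _ _ _).smul_left _).smul_right _

end

theorem Com.close {B : Type} [CStarAlgebra B] [Nontrivial B] {J : Type} {n : J → ℕ}
    {φ : Fam n B} (hc : Com φ) : ∃ (A : Type) (_ : CStarAlgebra A), Nontrivial A ∧
      ∃ ψ : Fam n A, Com ψ ∧ Dense (Al ψ Set.univ : Set A) := by
  let D := (Al φ Set.univ).topologicalClosure
  have hD : IsClosed (D : Set B) := StarSubalgebra.isClosed_topologicalClosure _
  let ψ : Fam n D := fun j => (φ j).codRestrict D fun m =>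
    subset_closure (mem_Al (Set.mem_univ j) m)
  refine ⟨D, inferInstance, inferInstance, ψ, fun i j h x y => Subtype.ext (hc i j h x y), ?_⟩
  refine (Subtype.dense_iff (s := (D : Set B))).2 (closure_mono ?_)
  change Al φ Set.univ ≤ (Al ψ Set.univ).map D.subtype
  refine StarAlgebra.adjoin_le fun x hx => ?_
  simp only [Set.mem_iUnion] at hx
  obtain ⟨j, -, m, rfl⟩ := hx
  exact ⟨ψ j m, mem_Al (Set.mem_univ j) m, rfl⟩

theorem exists_tp {J : Type} {n : J → ℕ} (hn : ∀ j, 0 < n j) :
    ∃ (A : Type) (_ : CStarAlgebra A), Nontrivial A ∧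
      ∃ ψ : Fam n A, Com ψ ∧ Dense (Al ψ Set.univ : Set A) := by
  let b : HilbertBasis (∀ j, Fin (n j)) ℂ (lp (fun _ : ∀ j, Fin (n j) => ℂ) 2) := default
  obtain ⟨φ, hφ⟩ := exists_fam b
  have : Nontrivial (lp (fun _ : ∀ j, Fin (n j) => ℂ) 2) :=
    ⟨⟨_, _, b.orthonormal.ne_zero fun j => ⟨0, hn j⟩⟩⟩
  exact hφ.close

section
open Cardinal

variable {A C : Type} [CStarAlgebra A] [CStarAlgebra C] [Nontrivial A] [Nontrivial C]
  {J K : Type} {n : J → ℕ}

theorem emb_of_inj {φ : Fam n A} (hφ : Com φ) {χ : Fam (fun _ : K => 2) C} (hχ : Com χ)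
    (hd : Dense (Al χ Set.univ : Set C)) (g : K → J) (hg : Function.Injective g)
    (he : ∀ k, Even (n (g k))) : ∃ f : C →⋆ₐ[ℂ] A, Function.Injective f :=
  hχ.univ hd (ψ := fun k => (φ (g k)).comp (even_hom (he k)).some)
    fun _ _ h _ _ => hφ _ _ (hg.ne h) _ _

omit [Nontrivial C] in
theorem card_le {φ : Fam n A} (hφ : Com φ) (hd : Dense (Al φ Set.univ : Set A))
    {χ : Fam (fun _ : K => 2) C} (hχ : Com χ) (f : C →⋆ₐ[ℂ] A) (hK : ℵ₀ < #K) :
    #K ≤ #{j | Even (n j)} := by
  by_contra hcon
  have hm := fun a => (MU.ofHom (χ a)).map f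
  refine hφ.NE hd (fun a => f (χ a (Matrix.single 0 1 1))) (fun a => ?_) (fun a => ?_)
    (fun a => ?_) (fun a b h => ⟨(hχ a b h _ _).map f, ?_⟩) hK (not_le.1 hcon)
  · have h1 : IsStarProjection (f (χ a (Matrix.single 1 1 1))) :=
      ⟨((hm a).mul 1 1 1 1).trans (if_pos rfl), (hm a).st 1 1⟩
    have h2 := h1.norm_le
    have h3 := (hm a).mul 1 0 0 1
    rw [if_pos rfl, ← (hm a).st 0 1] at h3
    rw [← h3, CStarRing.norm_star_mul_self] at h2
    nlinarith [norm_nonneg (f (χ a (Matrix.single 0 1 1)))]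
  · simpa using (hm a).mul 0 1 0 1
  · rw [(hm a).st, (hm a).mul, (hm a).mul, ← (hm a).sum]
    simp [add_comm]
  · rw [(hm a).st]
    exact (hχ a b h _ _).map f

omit [Nontrivial C] in
theorem prod_le [Fintype J] [Fintype K] {m : K → ℕ} {φ : Fam n A} (hφ : Com φ)
    (hd : Dense (Al φ Set.univ : Set A)) {χ : Fam m C} (hχ : Com χ) (f : C →⋆ₐ[ℂ] A) :
    (∏ k, m k) ^ 2 ≤ (∏ j, n j) ^ 2 := by
  obtain ⟨N, e, h, -, h2, h3⟩ := hφ.sys univ
  obtain ⟨M, e', h', -, -, h4⟩ := hχ.sys univ
  let T := h.hom.toAlgHom.toLinearMap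
  have hs : Function.Surjective T := by
    rw [← Set.range_eq_univ, ← LinearMap.coe_range,
      ← (LinearMap.range T).closed_of_finiteDimensional.closure_eq, ← dense_iff_closure_eq]
    rw [coe_univ] at h2
    exact hd.mono h2
  have := Module.Finite.of_surjective T hs
  have a1 := LinearMap.finrank_le_finrank_of_surjective hs
  have a2 := LinearMap.finrank_le_finrank_of_injective
    (f := (h'.map f).hom.toAlgHom.toLinearMap) (mat_inj (h'.map f).hom)
  have a3 := a2.trans a1
  simpa [Module.finrank_matrix, ← h3, ← h4, sq] using a3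

end

end Pool.Agent.H.MP_0dad12_an
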